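import Pool.Agent.W8.LS.Stm

/-! LS-ActSite (MP_89d91e_gt). -/

set_option autoImplicit false

open Complex (I)

namespace Pool.Agent.W625.LSActSite
open Pool.Agent.W8.LS

theorem ActSite_proof : ActSite := by
  intro e k l a n m r k' l' m' r' s c z w he
  rcases he with rfl | rfl
  · simp only [act, site]
    refine Prod.ext ?_ (Prod.ext ?_ (Prod.ext ?_ ?_))
    · simp
      ring
    · simp
    · apply Complex.ext <;> simp <;> ring
    · apply Complex.ext <;> simp <;> ring
  · simp only [act, site]
    refine Prod.ext ?_ (Prod.ext ?_ (Prod.ext ?_ ?_))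
    · simp
      ring
    · simp
    · apply Complex.ext <;> simp <;> ring
    · apply Complex.ext <;> simp <;> ring

end Pool.Agent.W625.LSActSite
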