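import Pool.Agent.W8.LS.Stm

/-! LS-KapGt, LamShift, SqBasic, LamEq, LamImm (MP_89d91e_gt). -/

set_option autoImplicit false

open scoped Topology ContDiff
open Complex (I)

namespace Pool.Agent.W625.LSLam
open Pool.Agent.W8.LS

theorem KapGt_proof : KapGt := by
  show (4 : ℝ) < Real.exp (Real.pi / 2)
  have h1 : (2.7 : ℝ) < Real.exp 1 := by
    have := Real.exp_one_gt_d9
    linarith
  have h2 : Real.exp (3 / 2) ^ 2 = Real.exp 1 ^ 3 := by
    rw [← Real.exp_nat_mul, ← Real.exp_nat_mul]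
    norm_num
  have h3 : (16 : ℝ) < Real.exp (3 / 2) ^ 2 := by
    rw [h2]
    have : (2.7 : ℝ) ^ 3 < Real.exp 1 ^ 3 := by gcongr
    norm_num at this ⊢
    linarith
  have h4 : (4 : ℝ) < Real.exp (3 / 2) := by
    have h5 := Real.exp_pos (3 / 2)
    nlinarith
  have h6 : Real.exp (3 / 2) < Real.exp (Real.pi / 2) := by
    apply Real.exp_lt_exp.2
    linarith [Real.pi_gt_three]
  linarith

theorem rel_shift (hF : Facts) (k l m r : ℤ) (n : ℤ) : ∀ (s c : ℝ) (z w : ℂ),
    rel (site k l m r (s, c, z, w)) (site k l m r (s + n, c, z, w)) := by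
  obtain ⟨hE, _, _, _, _, _, hflip, _⟩ := hF
  induction n using Int.induction_on with
  | zero => intro s c z w; simp only [Int.cast_zero, add_zero]; exact hE.refl _
  | succ i ih =>
    intro s c z w
    have h1 := ih s c z w
    have h2 := (hflip k l m r (s + ((i : ℤ) : ℝ)) c z w).2.2
    have h3 : s + ((i : ℤ) : ℝ) + 1 = s + (((i : ℤ) + 1 : ℤ) : ℝ) := by push_cast; ring
    rw [h3] at h2
    exact hE.trans h1 h2
  | pred i ih =>
    intro s c z w
    have h1 := ih s c z w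
    have h2 := (hflip k l m r (s + ((-(i : ℤ) - 1 : ℤ) : ℝ)) c z w).2.2
    have h3 : s + ((-(i : ℤ) - 1 : ℤ) : ℝ) + 1 = s + ((-(i : ℤ) : ℤ) : ℝ) := by push_cast; ring
    rw [h3] at h2
    exact hE.trans h1 (hE.symm h2)

theorem LamShift_proof : LamShift := by
  intro hF k l m r N s w n
  have hFacts := hF.1
  have hpt := hFacts.2.2.2.1
  unfold lam
  rw [hpt]
  refine ⟨?_, fun _ => rfl⟩
  exact hFacts.1.symm (rel_shift hFacts k l m r n _ _ _ _)

theorem sq_sq (u : ℂ) : W8.LS.sq u ^ 2 = 2 * u := by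
  unfold W8.LS.sq
  rw [one_div]
  exact Complex.cpow_nat_inv_pow (2 * u) two_ne_zero

theorem norm_sq_sq (u : ℂ) : ‖W8.LS.sq u‖ ^ 2 = 2 * ‖u‖ := by
  rw [← norm_pow, sq_sq, norm_mul]
  norm_num

theorem SqBasic_proof : SqBasic := by
  have h0 : W8.LS.sq 0 = 0 := by
    have := sq_sq 0
    rw [mul_zero] at this
    exact pow_eq_zero_iff two_ne_zero |>.1 this
  refine ⟨sq_sq, h0, ?_, norm_sq_sq, ?_, ?_⟩
  · intro u hu
    have := sq_sq u
    rw [hu] at this
    simp at this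
    exact this
  · rw [ContinuousAt, h0, tendsto_zero_iff_norm_tendsto_zero]
    have h1 : ∀ u : ℂ, ‖W8.LS.sq u‖ = Real.sqrt (2 * ‖u‖) := by
      intro u
      rw [← norm_sq_sq u, Real.sqrt_sq (norm_nonneg _)]
    simp_rw [h1]
    have h2 : Continuous fun u : ℂ => Real.sqrt (2 * ‖u‖) := by fun_prop
    have h3 := h2.tendsto 0
    simpa using h3
  · intro z
    have h1 : W8.LS.sq (z ^ 2 / 2) ^ 2 = z ^ 2 := by
      rw [sq_sq]; ring
    exact sq_eq_sq_iff_eq_or_eq_neg.1 h1

theorem rel_shiftI (hF : Facts) (k l m r : ℤ) (n : ℤ) : ∀ (s c : ℝ) (z w : ℂ),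
    rel (site k l m r (s, c, z, w)) (site k l m r (s, c, z + n * I, w)) := by
  obtain ⟨hE, _, _, _, _, _, hflip, _⟩ := hF
  induction n using Int.induction_on with
  | zero => intro s c z w; simp only [Int.cast_zero, zero_mul, add_zero]; exact hE.refl _
  | succ i ih =>
    intro s c z w
    have h1 := ih s c z w
    have h2 := (hflip k l m r s c (z + ((i : ℤ) : ℂ) * I) w).2.1
    have h3 : z + ((i : ℤ) : ℂ) * I + I = z + (((i : ℤ) + 1 : ℤ) : ℂ) * I := by push_cast; ring
    rw [h3] at h2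
    exact hE.trans h1 h2
  | pred i ih =>
    intro s c z w
    have h1 := ih s c z w
    have h2 := (hflip k l m r s c (z + ((-(i : ℤ) - 1 : ℤ) : ℂ) * I) w).2.1
    have h3 : z + ((-(i : ℤ) - 1 : ℤ) : ℂ) * I + I = z + ((-(i : ℤ) : ℤ) : ℂ) * I := by
      push_cast; ring
    rw [h3] at h2
    exact hE.trans h1 (hE.symm h2)

theorem LamEq_proof : LamEq := by
  intro hFacts hH hC k l m r N s z w hz
  have hpt := hFacts.2.2.2.1
  have hE := hFacts.1
  have hflip := hFacts.2.2.2.2.2.2.1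
  have h1 : Complex.cosh (2 * (Real.pi : ℂ) * arcc w) = w := by
    unfold arcc
    exact Classical.epsilon_spec (hC.1 w)
  unfold lam
  rw [hpt]
  refine ⟨?_, fun _ => rfl⟩
  obtain ⟨n, h2 | h2⟩ := hC.2 (arcc w) z (h1.trans hz.symm)
  · have h3 := rel_shiftI hFacts k l m r n s (-(N : ℝ) / √2) (arcc w)
      (((N : ℝ) * hf (arcc w).re : ℝ) : ℂ)
    have h4 : z.re = (arcc w).re := by rw [h2]; simp
    unfold sheet
    rw [h4]
    rw [← h2] at h3
    exact h3
  · have h3 := (hflip k l m r s (-(N : ℝ) / √2) (arcc w)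
      (((N : ℝ) * hf (arcc w).re : ℝ) : ℂ)).1
    have h5 := rel_shiftI hFacts k l m r n s (-(N : ℝ) / √2) (-arcc w)
      (-(((N : ℝ) * hf (arcc w).re : ℝ) : ℂ))
    have h4 : z.re = -(arcc w).re := by rw [h2]; simp
    have h6 := hE.trans h3 h5
    rw [← h2] at h6
    unfold sheet
    rw [h4, hH.2.1]
    have h7 : (((N : ℝ) * -hf (arcc w).re : ℝ) : ℂ) = -(((N : ℝ) * hf (arcc w).re : ℝ) : ℂ) := by
      push_cast; ring
    rw [h7]
    exact h6

theorem LamImm_proof : LamImm := by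
  intro hF hCI hCB hR hB k l m r N s z hz
  by_cases h : Complex.sinh (2 * (Real.pi : ℂ) * z) = 0
  · apply hB hF hCB k l m r N s
    have h1 := Complex.cosh_sq_sub_sinh_sq (2 * (Real.pi : ℂ) * z)
    rw [h] at h1
    have h2 : Complex.cosh (2 * (Real.pi : ℂ) * z) ^ 2 = 1 := by
      rw [← h1]; ring
    have h3 : (Complex.cosh (2 * (Real.pi : ℂ) * z) - 1) *
        (Complex.cosh (2 * (Real.pi : ℂ) * z) + 1) = 0 := by
      linear_combination h2
    rcases mul_eq_zero.1 h3 with h4 | h4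
    · left; linear_combination h4
    · right; linear_combination h4
  · exact hR hF hCI k l m r N s z hz h

end Pool.Agent.W625.LSLam
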