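import Pool.Agent.W8.LS.Stm

/-! LS-SingRel, LS-NearSing, LS-LamSep (MP_89d91e_gt). -/

set_option autoImplicit false

open Complex (I)

namespace Pool.Agent.W625.LSSingRel
open Pool.Agent.W8.LS

theorem SingRel_proof : SingRel := by
  intro hA hE
  have key : ∀ P Q : V, rel P Q → sing P → sing Q := by
    rintro P Q ⟨e, k, l, a, n, m, r, he, hQ⟩ ⟨k', l', m', r', s, c, hP⟩
    subst hP
    rw [hA e k l a n m r k' l' m' r' s c 0 0 he] at hQ
    rw [mul_zero] at hQ
    exact ⟨_, _, _, _, _, _, hQ⟩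
  intro P Q h
  exact ⟨key P Q h, key Q P (hE.symm h)⟩

theorem NearSing_proof : NearSing := by
  intro k l m r s c z w hz hw hs
  obtain ⟨k', l', m', r', s', c', h⟩ := hs
  simp only [site, Prod.mk.injEq] at h
  obtain ⟨h1, h2, h3, h4⟩ := h
  have hzr := abs_lt.1 (lt_of_le_of_lt (Complex.abs_re_le_norm z) hz)
  have hzi := abs_lt.1 (lt_of_le_of_lt (Complex.abs_im_le_norm z) hz)
  have hwr := abs_lt.1 (lt_of_le_of_lt (Complex.abs_re_le_norm w) hw)
  have hwi := abs_lt.1 (lt_of_le_of_lt (Complex.abs_im_le_norm w) hw)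
  have a1 := congrArg Complex.re h3
  have a2 := congrArg Complex.im h3
  have a3 := congrArg Complex.re h4
  have a4 := congrArg Complex.im h4
  simp at a1 a2 a3 a4
  have hk : k = k' := by
    have : |(k : ℝ) - k'| < 1 := by
      rw [abs_lt]; constructor <;> linarith [hzr.1, hzr.2]
    have h5 : |((k - k' : ℤ) : ℝ)| < 1 := by push_cast; exact this
    have h6 : |k - k'| < 1 := by exact_mod_cast h5
    have := Int.abs_lt_one_iff.1 h6
    omega
  have hl : l = l' := by
    have : |(l : ℝ) - l'| < 1 := by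
      rw [abs_lt]; constructor <;> linarith [hzi.1, hzi.2]
    have h5 : |((l - l' : ℤ) : ℝ)| < 1 := by push_cast; exact this
    have h6 : |l - l'| < 1 := by exact_mod_cast h5
    have := Int.abs_lt_one_iff.1 h6
    omega
  have hm : m = m' := by
    have : |(m : ℝ) - m'| < 1 := by
      rw [abs_lt]; constructor <;> linarith [hwr.1, hwr.2]
    have h5 : |((m - m' : ℤ) : ℝ)| < 1 := by push_cast; exact this
    have h6 : |m - m'| < 1 := by exact_mod_cast h5
    have := Int.abs_lt_one_iff.1 h6
    omega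
  subst hk hl hm
  have hr : r = r' := by
    rw [← h2] at a4
    have : |(r : ℝ) - r'| < 1 := by
      rw [abs_lt]; constructor <;> linarith [hwi.1, hwi.2]
    have h5 : |((r - r' : ℤ) : ℝ)| < 1 := by push_cast; exact this
    have h6 : |r - r'| < 1 := by exact_mod_cast h5
    have := Int.abs_lt_one_iff.1 h6
    omega
  subst hr
  constructor
  · apply Complex.ext
    · simp; linarith
    · simp; linarith
  · apply Complex.ext
    · simp; linarith
    · rw [← h2] at a4
      simp; linarith

theorem LamSep_proof : LamSep := by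
  intro hF N s s' z z' hz hz' h
  obtain ⟨hFacts, _, _, _, hlam⟩ := hF
  obtain ⟨_, _, _, hpt, _⟩ := hFacts
  rw [hlam 0 0 0 0 N s z _ rfl, hlam (-1) 0 (-(N : ℤ)) 0 N s' z' _ rfl, hpt] at h
  obtain ⟨⟨e, k, l, a, n, m, r, he, hQ⟩, _⟩ := h
  have h3 := congrArg (fun P : V => P.2.2.1.re) hQ
  simp only [site, act, sheet] at h3
  have hz1 := abs_le.1 hz
  have hz2 := abs_lt.1 hz'
  rcases he with rfl | rfl
  · simp at h3
    have hk1 : (k : ℝ) < 1 := by linarith [hz1.1, hz2.2]
    have hk2 : (0 : ℝ) < k := by linarith [hz1.2, hz2.1]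
    have hk3 : k < 1 := by exact_mod_cast hk1
    have hk4 : 0 < k := by exact_mod_cast hk2
    omega
  · simp at h3
    have hk1 : (-1 : ℝ) < k := by linarith [hz1.2, hz2.2]
    have hk2 : (k : ℝ) < 0 := by linarith [hz1.1, hz2.1]
    have hk3 : -1 < k := by exact_mod_cast hk1
    have hk4 : k < 0 := by exact_mod_cast hk2
    omega

end Pool.Agent.W625.LSSingRel
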